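import Pool.Agent.Helper28.IV2.Spec

set_option autoImplicit false

/-! # IV2 part Z: choice of the sets -/

namespace Pool.Agent.Helper59.IV2.Z

open Filter Topology
open Pool.Agent.Helper28.IV2

theorem exists_seq (P : ℕ → ℕ → Prop) (h : ∀ i M : ℕ, ∃ N, M < N ∧ P i N) :
    ∃ N : ℕ → ℕ, StrictMono N ∧ ∀ i, P i (N i) := by
  choose g hg using h
  let N : ℕ → ℕ := fun i => Nat.rec (g 0 0) (fun i r => g (i + 1) r) i
  refine ⟨N, strictMono_nat_of_lt_succ fun i => (hg (i + 1) (N i)).1, fun i => ?_⟩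
  cases i with
  | zero => exact (hg 0 0).2
  | succ i => exact (hg (i + 1) (N i)).2

open Classical in
theorem count (S : Set ℕ) (K M : ℕ) : M ≤ mis S K M + K * nJ S 0 M := by
  have hsub : Finset.range M ⊆
      ((Finset.range M).filter fun n => ∀ s ∈ S, s ≤ n → ¬ n < s + K) ∪
        (((Finset.Ico 0 M).filter fun i => i ∈ S).biUnion fun s => Finset.Ico s (s + K)) := by
    intro n hn
    by_cases h : ∀ s ∈ S, s ≤ n → ¬ n < s + K
    · exact Finset.mem_union_left _ (Finset.mem_filter.2 ⟨hn, h⟩)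
    · push Not at h
      obtain ⟨s, hs, h1, h2⟩ := h
      refine Finset.mem_union_right _ (Finset.mem_biUnion.2 ⟨s, ?_, Finset.mem_Ico.2 ⟨h1, h2⟩⟩)
      have := Finset.mem_range.1 hn
      exact Finset.mem_filter.2 ⟨Finset.mem_Ico.2 ⟨Nat.zero_le _, by omega⟩, hs⟩
  have h1 := Finset.card_le_card hsub
  rw [Finset.card_range] at h1
  refine h1.trans ((Finset.card_union_le _ _).trans ?_)
  refine Nat.add_le_add (le_of_eq rfl) ?_
  refine Finset.card_biUnion_le.trans ?_
  simp only [Nat.card_Ico, add_tsub_cancel_left, Finset.sum_const, smul_eq_mul]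
  unfold nJ
  rw [mul_comm]

open Classical in
theorem nJ_le (S : Set ℕ) (M : ℕ) : nJ S 0 M ≤ M := by
  unfold nJ
  refine (Finset.card_filter_le _ _).trans ?_
  simp

open Classical in
theorem nJ_split (S : Set ℕ) {N M : ℕ} (h : N ≤ M) : nJ S 0 M ≤ nJ S 0 N + nJ S N M := by
  unfold nJ
  rw [← Finset.Ico_union_Ico_eq_Ico (Nat.zero_le N) h, Finset.filter_union]
  exact Finset.card_union_le _ _

open Classical in
theorem nJ_mono (S : Set ℕ) {s t u v : ℕ} (h1 : u ≤ s) (h2 : t ≤ v) : nJ S s t ≤ nJ S u v := by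
  unfold nJ
  exact Finset.card_le_card (Finset.filter_subset_filter _ (Finset.Ico_subset_Ico h1 h2))

open Classical in
theorem main : S_Z := by
  intro S u v hcov
  unfold Cov at hcov
  push Not at hcov
  obtain ⟨ε, hε, h⟩ := hcov
  by_cases h1 : ∃ ε' : ℝ, 0 < ε' ∧ ∀ K : ℕ, ∃ᶠ N : ℕ in atTop, ε' * N < (mis S K N : ℝ)
  · obtain ⟨ε', hε', h1⟩ := h1
    obtain ⟨N, hN, hP⟩ := exists_seq (fun i N => ε' * N < (mis S i N : ℝ)) (fun i M => by
      obtain ⟨N, hN, hP⟩ := Filter.frequently_atTop.1 (h1 i) (M + 1)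
      exact ⟨N, hN, hP⟩)
    refine ⟨ε', N, fun i => (Finset.range (N i)).filter fun n => ∀ s ∈ S, s ≤ n → ¬ n < s + i,
      hε', hN, fun i => Finset.filter_subset _ _, fun i => hP i, fun i j => Or.inl ?_⟩
    intro s hs _ _ n hn h2
    exact (Finset.mem_filter.1 hn).2 s hs h2.1 h2.2
  · push Not at h1
    obtain ⟨K0, hK0⟩ := h1 (1 / 2) (by norm_num)
    obtain ⟨M0, hM0⟩ := Filter.eventually_atTop.1 hK0
    have hden : ∀ M, M0 ≤ M → M ≤ 2 * K0 * nJ S 0 M := by
      intro M hM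
      have h2 := hM0 M hM
      have h3 : ((M : ℕ) : ℝ) ≤ ((mis S K0 M + K0 * nJ S 0 M : ℕ) : ℝ) := by
        exact_mod_cast count S K0 M
      push_cast at h3
      have h4 : (M : ℝ) ≤ ((2 * K0 * nJ S 0 M : ℕ) : ℝ) := by
        push_cast
        linarith
      exact_mod_cast h4
    have hK : 1 ≤ K0 := by
      by_contra hcon
      have h2 : K0 = 0 := by omega
      have h3 := hden (M0 + 1) (by omega)
      rw [h2] at h3
      simp at h3
    obtain ⟨N, hN, hP⟩ := exists_seq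
      (fun i N => M0 ≤ N ∧ ε * N < (uns S u v i (2 * K0 * (i + 1)) N : ℝ)) (fun i M => by
        obtain ⟨N, hN, hP⟩ := Filter.frequently_atTop.1 (h i (2 * K0 * (i + 1))) (max (M + 1) M0)
        exact ⟨N, (le_max_left _ _).trans hN, (le_max_right _ _).trans hN, hP⟩)
    refine ⟨ε, N, fun i => (Finset.range (N i)).filter fun n => ∀ s ∈ S, s ≤ n → n < s + i →
      ∀ j, v j ≤ (2 * K0 * (i + 1)) * N i → ¬ (u j ≤ s ∧ s < v j),
      hε, hN, fun i => Finset.filter_subset _ _, fun i => (hP i).2, fun i j => ?_⟩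
    by_cases hc : ∀ s ∈ S, u j ≤ s → s < v j → ∀ n ∈ ((Finset.range (N i)).filter fun n =>
        ∀ s ∈ S, s ≤ n → n < s + i →
          ∀ j, v j ≤ (2 * K0 * (i + 1)) * N i → ¬ (u j ≤ s ∧ s < v j)), ¬ (s ≤ n ∧ n < s + i)
    · exact Or.inl hc
    · right
      push Not at hc
      obtain ⟨s, hs, h2, h3, n, hn, h4, h5⟩ := hc
      obtain ⟨h6, h7⟩ := Finset.mem_filter.1 hn
      have h6' := Finset.mem_range.1 h6
      have h8 : (2 * K0 * (i + 1)) * N i < v j := by
        by_contra hcon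
        have h9 := h7 s hs h4 h5 j (by omega) h2
        omega
      have h9 : N i ≤ (2 * K0 * (i + 1)) * N i := by
        refine Nat.le_mul_of_pos_left _ ?_
        positivity
      have h10 := hden ((2 * K0 * (i + 1)) * N i) ((hP i).1.trans h9)
      have h11 : (i + 1) * N i ≤ nJ S 0 ((2 * K0 * (i + 1)) * N i) := by
        have h12 : 2 * K0 * ((i + 1) * N i) ≤ 2 * K0 * nJ S 0 ((2 * K0 * (i + 1)) * N i) := by
          calc 2 * K0 * ((i + 1) * N i) = (2 * K0 * (i + 1)) * N i := by ring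
            _ ≤ _ := h10
        exact Nat.le_of_mul_le_mul_left h12 (by omega)
      have h13 := nJ_split S h9
      have h14 := nJ_le S (N i)
      have h15 : nJ S (N i) ((2 * K0 * (i + 1)) * N i) ≤ nJ S (u j) (v j) :=
        nJ_mono S (by omega) h8.le
      have h16 : (i + 1) * N i = i * N i + N i := by ring
      omega

end Pool.Agent.Helper59.IV2.Z
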